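import Pool.Agent.P8H70.SR.Stm

set_option autoImplicit false

open Filter Topology Metric Set

namespace Pool.Agent.P8H79.SR

open Pool.Agent.P8H70.SR

theorem hf : S_CO → S_HF := by
  rintro ⟨-, hadd, hmul, -, -, hrot, -, -, hcau⟩ P H α hH hα hP hHol m hm
  have hm0 : (0 : ℝ) < m := by exact_mod_cast hm
  have hmC : (m : ℂ) ≠ 0 := by exact_mod_cast (by omega : m ≠ 0)
  set ω : ℂ := Complex.exp ((Real.pi / m : ℝ) * Complex.I) with hω
  have hωn : ‖ω‖ = 1 := by rw [hω]; exact Complex.norm_exp_ofReal_mul_I _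
  have hωm : ω ^ m = -1 := by
    rw [hω, ← Complex.exp_nat_mul]
    have : (m : ℂ) * (((Real.pi / m : ℝ) : ℂ) * Complex.I) = Real.pi * Complex.I := by
      push_cast
      field_simp
    rw [this, Complex.exp_pi_mul_I]
  have hω1 : ‖1 - ω‖ ≤ Real.pi / m := by
    have h1 := Real.norm_exp_I_mul_ofReal_sub_one_le (x := Real.pi / m)
    have h2 : ‖1 - ω‖ = ‖Complex.exp (Complex.I * (Real.pi / m : ℝ)) - 1‖ := by
      rw [norm_sub_rev, hω, mul_comm Complex.I]
    rw [h2]
    refine h1.trans (le_of_eq ?_)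
    rw [Real.norm_eq_abs, abs_of_pos (div_pos Real.pi_pos hm0)]
  have h0 : ball (0 : ℂ) 1 ∈ 𝓝 (0 : ℂ) := ball_mem_nhds _ one_pos
  have hPa : AnalyticAt ℂ P 0 := hP.analyticAt h0
  have hmap : ∀ z ∈ ball (0 : ℂ) 1, ω * z ∈ ball (0 : ℂ) 1 := by
    intro z hz
    rw [mem_ball_zero_iff] at hz ⊢
    rw [norm_mul, hωn, one_mul]
    exact hz
  have hPω : DifferentiableOn ℂ (fun z => P (ω * z)) (ball 0 1) :=
    hP.comp (f := fun z => ω * z) ((differentiable_id.const_mul ω).differentiableOn) hmap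
  have hPωa : AnalyticAt ℂ (fun z => P (ω * z)) 0 := hPω.analyticAt h0
  have hQ : co m (fun z => P z + (-1) * P (ω * z)) = 2 * co m P := by
    rw [hadd m P (fun z => (-1) * P (ω * z)) hPa (analyticAt_const.mul hPωa),
      hmul m (-1) (fun z => P (ω * z)) hPωa, hrot m P ω hPa, hωm]
    ring
  have hB0 : (0 : ℝ) ≤ H * (Real.pi / m) ^ α :=
    mul_nonneg hH (Real.rpow_nonneg (div_nonneg Real.pi_pos.le hm0.le) _)
  have hb := hcau m (fun z => P z + (-1) * P (ω * z)) 1 (H * (Real.pi / m) ^ α) one_pos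
    (hP.add (hPω.const_mul (-1))) (by
      intro z hz
      have h1 : P z + (-1) * P (ω * z) = P z - P (ω * z) := by ring
      rw [h1]
      refine (hHol z hz (ω * z) (hmap z hz)).trans ?_
      refine mul_le_mul_of_nonneg_left ?_ hH
      refine Real.rpow_le_rpow (norm_nonneg _) ?_ hα.le
      have h2 : z - ω * z = (1 - ω) * z := by ring
      rw [h2, norm_mul]
      have h3 : ‖z‖ ≤ 1 := (mem_ball_zero_iff.1 hz).le
      calc ‖1 - ω‖ * ‖z‖ ≤ ‖1 - ω‖ * 1 := mul_le_mul_of_nonneg_left h3 (norm_nonneg _)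
        _ ≤ Real.pi / m := by rw [mul_one]; exact hω1)
  rw [hQ, one_pow, div_one, norm_mul] at hb
  have h4 : ‖(2 : ℂ)‖ = 2 := by simp
  rw [h4] at hb
  linarith [norm_nonneg (co m P)]

theorem co_zero (f : ℂ → ℂ) : co 0 f = f 0 := by simp [co]

theorem log2 : S_CO → S_LOG2 := by
  rintro ⟨hloc, hadd, -, hpr, -, -, hpw, heu, -⟩ E hE hE0
  have h1a : AnalyticAt ℂ (fun h => 1 + E h) 0 := analyticAt_const.add hE
  have hsl : (1 + E 0) ∈ Complex.slitPlane := by rw [hE0, add_zero]; exact Complex.one_mem_slitPlane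
  have hla : AnalyticAt ℂ (fun h => Complex.log (1 + E h)) 0 := h1a.clog hsl
  set l : ℂ → ℂ := fun h => Complex.log (1 + E h) with hl
  have hone : ∀ m, co m (fun h => 1 + E h) = (if m = 0 then 1 else 0) + co m E := by
    intro m
    have h1 : (fun h : ℂ => 1 + E h) = fun h => h ^ 0 + E h := by funext h; simp
    rw [h1, hadd m (fun h => h ^ 0) E ((analyticAt_id).pow 0) hE, hpw m 0]
  have hev : (fun h => (h * deriv l h) * (1 + E h)) =ᶠ[𝓝 0] fun h => h * deriv E h := by
    have hd : ∀ᶠ h in 𝓝 (0 : ℂ), DifferentiableAt ℂ E h :=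
      (hE.eventually_analyticAt).mono fun h hh => hh.differentiableAt
    have hs : ∀ᶠ h in 𝓝 (0 : ℂ), (1 + E h) ∈ Complex.slitPlane :=
      h1a.continuousAt.eventually (Complex.isOpen_slitPlane.mem_nhds hsl)
    filter_upwards [hd, hs] with h hh hh2
    have h3 : HasDerivAt l (deriv E h / (1 + E h)) h :=
      HasDerivAt.clog ((hh.hasDerivAt).const_add 1) hh2
    rw [h3.deriv]
    have hne : (1 + E h) ≠ 0 := Complex.slitPlane_ne_zero hh2
    field_simp
  have hda : AnalyticAt ℂ (fun h => h * deriv l h) 0 := analyticAt_id.mul hla.deriv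
  have key : ∀ m, ∑ p ∈ Finset.HasAntidiagonal.antidiagonal m,
      co p.1 (fun h => h * deriv l h) * co p.2 (fun h => 1 + E h) = m * co m E := by
    intro m
    rw [← hpr m _ _ hda h1a, hloc m _ _ hev, heu m E hE]
  have k1 := key 1
  have k2 := key 2
  simp only [Finset.Nat.antidiagonal_succ, Finset.Nat.antidiagonal_zero, Finset.map_singleton,
    Finset.sum_cons, Finset.sum_map, Finset.sum_singleton, heu _ l hla, hone] at k1 k2
  simp [co_zero, hE0] at k1 k2
  constructor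
  · exact k1
  · rw [k1] at k2
    linear_combination k2 / 2

end Pool.Agent.P8H79.SR
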