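import Pool.Agent.P8H70.SR.Stm

set_option autoImplicit false

open Filter Topology Metric Set

namespace Pool.Agent.P8H79.SR

open Pool.Agent.P8H70.SR

theorem co_zero' (f : ℂ → ℂ) : co 0 f = f 0 := by simp [co]

theorem co_one' (f : ℂ → ℂ) : co 1 f = deriv f 0 := by simp [co]

theorem both : S_CO → S_COMP → ∀ (g L : ℕ → ℂ → ℂ) (ρ : ℕ → ℝ) (σ : ℕ → ℂ) (A r₀ ε : ℝ),
    0 < r₀ → Sys g L ρ σ A r₀ ε → ∀ i : ℕ,
      2 * co 1 (g i) = -(co 1 (L i) * ρ i) ∧
      2 * co 2 (g i) = -(co 1 (L i) * (ρ i * co 1 (g i)) + co 2 (L i) * (ρ i : ℂ) ^ 2) +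
        σ i * co 1 (g (i + 1)) := by
  rintro ⟨hloc, hadd, hmul, hpr, -, -, hpw, -, -⟩ hcomp g L ρ σ A r₀ ε hr₀ hS i
  have h0 : ball (0 : ℂ) 1 ∈ 𝓝 (0 : ℂ) := ball_mem_nhds _ one_pos
  have hga : ∀ i, AnalyticAt ℂ (g i) 0 := fun i => (hS.g_diff i).analyticAt h0
  -- powers of the exponential
  have hexpA : ∀ (i : ℕ) (l : ℕ), AnalyticAt ℂ (fun z => Complex.exp (g i z) ^ l) 0 :=
    fun i l => ((hga i).cexp).pow l
  -- the inner function
  have hk : ∀ i : ℕ, ∀ l : ℕ, (fun z : ℂ => (ρ i * z * Complex.exp (g i z)) ^ l) =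
      fun z => ((ρ i : ℂ) ^ l) * (z ^ l * Complex.exp (g i z) ^ l) := by
    intro i l
    funext z
    rw [mul_pow, mul_pow]
    ring
  have hzl : ∀ l : ℕ, AnalyticAt ℂ (fun z : ℂ => z ^ l) 0 := fun l => analyticAt_id.pow l
  have hcl : ∀ (i l m : ℕ), co m (fun z : ℂ => (ρ i * z * Complex.exp (g i z)) ^ l) =
      (ρ i : ℂ) ^ l * ∑ p ∈ Finset.HasAntidiagonal.antidiagonal m,
        (if p.1 = l then 1 else 0) * co p.2 (fun z => Complex.exp (g i z) ^ l) := by
    intro i l m
    rw [hk i l, hmul m _ _ ((hzl l).fun_mul (hexpA i l)), hpr m _ _ (hzl l) (hexpA i l)]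
    simp only [hpw]
  have he0 : ∀ i l, co 0 (fun z => Complex.exp (g i z) ^ l) = 1 := by
    intro i l
    rw [co_zero', hS.g_zero i, Complex.exp_zero, one_pow]
  have he1 : ∀ i, co 1 (fun z => Complex.exp (g i z) ^ 1) = co 1 (g i) := by
    intro i
    rw [co_one', co_one']
    have h1 : HasDerivAt (fun z => Complex.exp (g i z) ^ 1)
        (Complex.exp (g i 0) * deriv (g i) 0) 0 := by
      simp only [pow_one]
      exact ((hga i).differentiableAt.hasDerivAt).cexp
    rw [h1.deriv, hS.g_zero i, Complex.exp_zero, one_mul]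
  have c1 : ∀ i l, co 1 (fun z : ℂ => (ρ i * z * Complex.exp (g i z)) ^ l) =
      if l = 1 then (ρ i : ℂ) else 0 := by
    intro i l
    rw [hcl]
    simp only [Finset.Nat.antidiagonal_succ, Finset.Nat.antidiagonal_zero, Finset.map_singleton,
      Finset.sum_cons, Finset.sum_map, Finset.sum_singleton]
    rcases l with _ | _ | l
    · simp [co_one']
    · have := he0 i 1
      simp at this
      simp [this]
    · simp
  have c2 : ∀ i l, co 2 (fun z : ℂ => (ρ i * z * Complex.exp (g i z)) ^ l) =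
      if l = 1 then (ρ i : ℂ) * co 1 (g i) else if l = 2 then (ρ i : ℂ) ^ 2 else 0 := by
    intro i l
    rw [hcl]
    simp only [Finset.Nat.antidiagonal_succ, Finset.Nat.antidiagonal_zero, Finset.map_singleton,
      Finset.sum_cons, Finset.sum_map, Finset.sum_singleton]
    rcases l with _ | _ | _ | l
    · have : co 2 (fun _ : ℂ => (1 : ℂ)) = 0 := by
        have := hpw 2 0
        simpa using this
      simp [this]
    · have := he1 i
      simp at this
      simp [this]
    · have := he0 i 2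
      simp [this]
    · simp
  -- the left function
  have hin : DifferentiableOn ℂ (fun z : ℂ => (ρ i : ℂ) * z * Complex.exp (g i z)) (ball 0 1) := by
    refine DifferentiableOn.mul (differentiableOn_id.const_mul _) ((hS.g_diff i).cexp)
  have hcont : ContinuousAt (fun z : ℂ => (ρ i : ℂ) * z * Complex.exp (g i z)) 0 :=
    (hin.differentiableAt h0).continuousAt
  have hsmall : ∀ᶠ z in 𝓝 (0 : ℂ), ‖(ρ i : ℂ) * z * Complex.exp (g i z)‖ < r₀ / 2 := by
    have h1 : ContinuousAt (fun z : ℂ => ‖(ρ i : ℂ) * z * Complex.exp (g i z)‖) 0 := hcont.norm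
    refine h1.eventually (Iio_mem_nhds ?_)
    simp only [mul_zero, zero_mul, norm_zero]
    positivity
  obtain ⟨δ₀, hδ₀, hδ⟩ := Metric.eventually_nhds_iff_ball.1 hsmall
  have hδm : 0 < min δ₀ 1 := lt_min hδ₀ one_pos
  have hL := hcomp (L i) (fun z : ℂ => (ρ i : ℂ) * z * Complex.exp (g i z)) r₀ (r₀ / 2) (min δ₀ 1)
    (by positivity) (by linarith) hδm (hS.L_diff i) (hin.mono (ball_subset_ball (min_le_right _ _)))
    (fun z hz => (hδ z (ball_subset_ball (min_le_left _ _) hz)).le)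
  have hL1 : co 1 (fun z => L i ((ρ i : ℂ) * z * Complex.exp (g i z))) = co 1 (L i) * ρ i := by
    refine (hL 1).unique ?_
    have h1 : (fun l : ℕ => co l (L i) *
        co 1 (fun z : ℂ => (ρ i * z * Complex.exp (g i z)) ^ l)) =
        fun l => if l = 1 then co 1 (L i) * ρ i else 0 := by
      funext l
      rw [c1]
      split_ifs with h
      · rw [h]
      · rw [mul_zero]
    rw [h1]
    exact hasSum_ite_eq 1 _
  have hL2 : co 2 (fun z => L i ((ρ i : ℂ) * z * Complex.exp (g i z))) =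
      co 1 (L i) * (ρ i * co 1 (g i)) + co 2 (L i) * (ρ i : ℂ) ^ 2 := by
    refine (hL 2).unique ?_
    have h1 : (fun l : ℕ => co l (L i) *
        co 2 (fun z : ℂ => (ρ i * z * Complex.exp (g i z)) ^ l)) =
        fun l => (if l = 1 then co 1 (L i) * (ρ i * co 1 (g i)) else 0) +
          (if l = 2 then co 2 (L i) * (ρ i : ℂ) ^ 2 else 0) := by
      funext l
      rw [c2]
      by_cases h : l = 1
      · subst h
        simp
      · by_cases h' : l = 2
        · subst h'
          simp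
        · simp [h, h']
    rw [h1]
    exact (hasSum_ite_eq 1 _).add (hasSum_ite_eq 2 _)
  -- the right function
  have hsq : ∀ l m : ℕ, co m (fun z : ℂ => (σ i * z ^ 2) ^ l) =
      σ i ^ l * (if m = 2 * l then 1 else 0) := by
    intro l m
    have h1 : (fun z : ℂ => (σ i * z ^ 2) ^ l) = fun z => σ i ^ l * z ^ (2 * l) := by
      funext z
      rw [mul_pow, ← pow_mul]
    rw [h1, hmul m _ _ (hzl (2 * l)), hpw]
  have hnσ : ∀ z : ℂ, ‖σ i * z ^ 2‖ = ‖z‖ ^ 2 := by
    intro z
    rw [norm_mul, hS.hσ i, one_mul, norm_pow]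
  have hR := hcomp (g (i + 1)) (fun z : ℂ => σ i * z ^ 2) 1 (1 / 2) (1 / 2)
    (by norm_num) (by norm_num) (by norm_num) (hS.g_diff (i + 1))
    ((differentiable_id.pow 2).const_mul _).differentiableOn
    (fun z hz => by
      rw [hnσ]
      have := mem_ball_zero_iff.1 hz
      nlinarith [norm_nonneg z])
  have hR1 : co 1 (fun z => g (i + 1) (σ i * z ^ 2)) = 0 := by
    refine (hR 1).unique ?_
    have h1 : (fun l : ℕ => co l (g (i + 1)) * co 1 (fun z : ℂ => (σ i * z ^ 2) ^ l)) =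
        fun _ => 0 := by
      funext l
      rw [hsq, if_neg (by omega)]
      ring
    rw [h1]
    exact hasSum_zero
  have hR2 : co 2 (fun z => g (i + 1) (σ i * z ^ 2)) = σ i * co 1 (g (i + 1)) := by
    refine (hR 2).unique ?_
    have h1 : (fun l : ℕ => co l (g (i + 1)) * co 2 (fun z : ℂ => (σ i * z ^ 2) ^ l)) =
        fun l => if l = 1 then σ i * co 1 (g (i + 1)) else 0 := by
      funext l
      rw [hsq]
      by_cases h : l = 1
      · subst h
        simp
        ring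
      · rw [if_neg (by omega), if_neg h]
        ring
    rw [h1]
    exact hasSum_ite_eq 1 _
  have hΛ : AnalyticAt ℂ (fun z => L i ((ρ i : ℂ) * z * Complex.exp (g i z))) 0 := by
    refine AnalyticAt.fun_comp_of_eq (f := fun z => (ρ i : ℂ) * z * Complex.exp (g i z)) (y := 0)
      ((hS.L_diff i).analyticAt (ball_mem_nhds _ hr₀)) (hin.analyticAt h0) ?_
    simp
  have hG : AnalyticAt ℂ (fun z => g (i + 1) (σ i * z ^ 2)) 0 := by
    refine AnalyticAt.fun_comp_of_eq (f := fun z => σ i * z ^ 2) (y := 0) (hga (i + 1))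
      (analyticAt_const.fun_mul (hzl 2)) ?_
    simp
  have heq : (fun z => 2 * g i z) =ᶠ[𝓝 0] fun z =>
      (-1) * L i ((ρ i : ℂ) * z * Complex.exp (g i z)) + g (i + 1) (σ i * z ^ 2) := by
    filter_upwards [h0] with z hz
    rw [hS.eq i z hz]
    ring
  have key : ∀ m, 2 * co m (g i) = -co m (fun z => L i ((ρ i : ℂ) * z * Complex.exp (g i z))) +
      co m (fun z => g (i + 1) (σ i * z ^ 2)) := by
    intro m
    rw [← hmul m 2 (g i) (hga i), hloc m _ _ heq, hadd m _ _ (analyticAt_const.fun_mul hΛ) hG,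
      hmul m _ _ hΛ]
    ring
  refine ⟨?_, ?_⟩
  · rw [key 1, hL1, hR1]
    ring
  · rw [key 2, hL2, hR2]

theorem second : S_CO → S_COMP → S_SECOND := by
  intro h1 h2 g L ρ σ A r₀ ε hr₀ hS i
  obtain ⟨a1, a2⟩ := both h1 h2 g L ρ σ A r₀ ε hr₀ hS i
  obtain ⟨b1, -⟩ := both h1 h2 g L ρ σ A r₀ ε hr₀ hS (i + 1)
  rw [a2]
  linear_combination (-(co 1 (L i) * ρ i) / 2) * a1 + (σ i / 2) * b1

end Pool.Agent.P8H79.SR
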