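import Pool.Agent.P8H70.SR.Stm

set_option autoImplicit false

open Filter Topology Metric Set

namespace Pool.Agent.P8H79.SR

open Pool.Agent.P8H70.SR

theorem ids (f : ℂ → ℂ) (n : ℕ) : iteratedDeriv (n + 1) f 0 = iteratedDeriv n (deriv f) 0 := by
  rw [iteratedDeriv_succ']

theorem d_sin : deriv Complex.sin = Complex.cos := Complex.deriv_sin
theorem d_cos : deriv Complex.cos = fun x => -Complex.sin x := Complex.deriv_cos'
theorem d_nsin : deriv (fun x => -Complex.sin x) = fun x => -Complex.cos x := by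
  funext x; simp
theorem d_ncos : deriv (fun x => -Complex.cos x) = Complex.sin := by
  funext x; simp

theorem co_sin3 : co 3 Complex.sin = -1 / 6 := by
  simp only [co, ids, d_sin, d_cos, d_nsin, d_ncos, iteratedDeriv_zero, Complex.cos_zero]
  norm_num [Nat.factorial]
theorem co_sin4 : co 4 Complex.sin = 0 := by
  simp only [co, ids, d_sin, d_cos, d_nsin, d_ncos, iteratedDeriv_zero, Complex.sin_zero]
  norm_num [Nat.factorial]
theorem co_cos2 : co 2 Complex.cos = -1 / 2 := by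
  simp only [co, ids, d_sin, d_cos, d_nsin, d_ncos, iteratedDeriv_zero, Complex.cos_zero]
  norm_num [Nat.factorial]
theorem co_cos3 : co 3 Complex.cos = 0 := by
  simp only [co, ids, d_sin, d_cos, d_nsin, d_ncos, iteratedDeriv_zero, Complex.sin_zero]
  norm_num [Nat.factorial]
theorem co_cos4 : co 4 Complex.cos = 1 / 24 := by
  simp only [co, ids, d_sin, d_cos, d_nsin, d_ncos, iteratedDeriv_zero, Complex.cos_zero]
  norm_num [Nat.factorial]

theorem sinA : AnalyticAt ℂ Complex.sin 0 := Complex.analyticAt_sin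
theorem cosA : AnalyticAt ℂ Complex.cos 0 := Complex.analyticAt_cos
theorem sinAc (c : ℂ) : AnalyticAt ℂ (fun h => Complex.sin (c * h)) 0 :=
  (Complex.analyticAt_sin).fun_comp (analyticAt_const.mul analyticAt_id)
theorem cosAc (c : ℂ) : AnalyticAt ℂ (fun h => Complex.cos (c * h)) 0 :=
  (Complex.analyticAt_cos).fun_comp (analyticAt_const.mul analyticAt_id)

theorem trig : S_CO → S_TRIG := by
  rintro ⟨-, hadd, hmul, -, hsh, hrot, hpw, -, -⟩ ε m
  have hpi : (Real.pi : ℂ) ≠ 0 := by exact_mod_cast Real.pi_ne_zero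
  set F : ℂ → ℂ := fun h : ℂ => (h - Complex.sin (2 * Real.pi * h) / (2 * Real.pi)) +
      ε / 2 * (Complex.sin (Real.pi * h) / Real.pi - h * Complex.cos (Real.pi * h)) +
      ε / 2 * (m + 1 / 2) * (1 - Complex.cos (Real.pi * h)) with hF
  have hA1 := sinAc (2 * Real.pi)
  have hA2 := sinAc Real.pi
  have hA3 := cosAc Real.pi
  have hA4 : AnalyticAt ℂ (fun h => h * Complex.cos (Real.pi * h)) 0 := analyticAt_id.mul hA3
  have hB0 : AnalyticAt ℂ (fun h : ℂ => h ^ 1) 0 := analyticAt_id.pow 1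
  have hB1 : AnalyticAt ℂ (fun h : ℂ => (-1 / (2 * Real.pi)) * Complex.sin (2 * Real.pi * h)) 0 :=
    analyticAt_const.mul hA1
  have hB2 : AnalyticAt ℂ (fun h : ℂ => (ε / (2 * Real.pi)) * Complex.sin (Real.pi * h)) 0 :=
    analyticAt_const.mul hA2
  have hB3 : AnalyticAt ℂ (fun h : ℂ => (-ε / 2) * (h * Complex.cos (Real.pi * h))) 0 :=
    analyticAt_const.mul hA4
  have hB4 : AnalyticAt ℂ (fun h : ℂ => (ε / 2 * (m + 1 / 2)) * h ^ 0) 0 :=
    analyticAt_const.mul (analyticAt_id.pow 0)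
  have hB5 : AnalyticAt ℂ (fun h : ℂ => (-(ε / 2 * (m + 1 / 2))) * Complex.cos (Real.pi * h)) 0 :=
    analyticAt_const.mul hA3
  have hFe : F = fun h => h ^ 1 + ((-1 / (2 * Real.pi)) * Complex.sin (2 * Real.pi * h) +
      ((ε / (2 * Real.pi)) * Complex.sin (Real.pi * h) +
      ((-ε / 2) * (h * Complex.cos (Real.pi * h)) + ((ε / 2 * (m + 1 / 2)) * h ^ 0 +
      (-(ε / 2 * (m + 1 / 2))) * Complex.cos (Real.pi * h))))) := by
    funext h
    rw [hF]
    field_simp
    ring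
  have hco : ∀ n : ℕ, co n F = (if n = 1 then 1 else 0) +
      ((-1 / (2 * Real.pi)) * ((2 * Real.pi) ^ n * co n Complex.sin) +
      ((ε / (2 * Real.pi)) * ((Real.pi : ℂ) ^ n * co n Complex.sin) +
      ((-ε / 2) * co n (fun h => h * Complex.cos (Real.pi * h)) +
      ((ε / 2 * (m + 1 / 2)) * (if n = 0 then 1 else 0) +
      (-(ε / 2 * (m + 1 / 2))) * ((Real.pi : ℂ) ^ n * co n Complex.cos))))) := by
    intro n
    rw [hFe, hadd n _ _ hB0 (hB1.fun_add (hB2.fun_add (hB3.fun_add (hB4.fun_add hB5)))),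
      hadd n _ _ hB1 (hB2.fun_add (hB3.fun_add (hB4.fun_add hB5))),
      hadd n _ _ hB2 (hB3.fun_add (hB4.fun_add hB5)), hadd n _ _ hB3 (hB4.fun_add hB5),
      hadd n _ _ hB4 hB5, hmul n _ _ hA1, hmul n _ _ hA2, hmul n _ _ hA4,
      hmul n _ (fun h : ℂ => h ^ 0) (analyticAt_id.pow 0), hmul n _ _ hA3,
      hrot n Complex.sin _ sinA, hrot n Complex.sin _ sinA, hrot n Complex.cos _ cosA,
      hpw n 1, hpw n 0]
  constructor
  · rw [hco 3, hsh 2 _ hA3, hrot 2 Complex.cos _ cosA, co_sin3, co_cos2, co_cos3]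
    norm_num
    field_simp
    ring
  · rw [hco 4, hsh 3 _ hA3, hrot 3 Complex.cos _ cosA, co_sin4, co_cos3, co_cos4]
    norm_num
    ring

end Pool.Agent.P8H79.SR
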